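import Pool.Agent.K1H71.BP.Low3

/-!
# Vojta's conjecture on blow-ups of projective space in rational points

Let `X` be the blow-up of the projective space of dimension `N ≥ 2` over the rationals in `r ≥ N`
rational points `P i`, any `N` of which are linearly independent, and `E i` the exceptional divisors,
so that `h_K = (N - 1) ∑ h_{E i} - (N + 1) h` where `h_{E i}` is a generalized logarithmic greatest
common divisor, over ALL places. For large `r` (for `N = 2`: ten general points) no multiple of `-K`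
is effective and the conjecture is open for `X`, also with `D = 0`.

Main theorem. The number `V` of the rational points of height at most `B` in no span of `N` of the
`P i` with `∑ h_{E i} ≥ κ h + c` is at most `B ^ (max (N + 1 - (N - 1) κ) (3 - κ)
(2 - 2 (N - 1) κ / r) 0 + ε)`, and for `κ < 1` it is `B ^ (N + 1 - (N - 1) κ + o(1))`, for every `r`.
In particular the points that violate the inequality of the conjecture with `D = 0` are at most
`B ^ (2 - min (2 / (N - 1)) (2 (N + 1) / r) + ε)`, and those that violate it for a sum `D` of `E i`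
at most `B ^ (2 - min (1 / N) (2 (N ^ 2 - 1) / (N r)) + ε)`, of about `B ^ (N + 1)` points.

The proof is by repeated projection from the points (induction on `N`). Tool from the starting
library: the divisor bound `Pool.Agent.H505R2.div_bound`.
-/

set_option autoImplicit false

namespace Pool.Agent.Results.MP_17a322_nt.BlownUpPoints

open Finset

variable {N r : ℕ}

/-- the integer vector `x` has coprime coordinates: it represents a rational point of the
projective space of dimension `N` (each point is represented twice, by `x` and `-x`) -/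
def IsPrimitive (x : Fin (N + 1) → ℤ) : Prop := univ.gcd x = 1

/-- the (multiplicative) height `H(x) = max |x_j|` of the point with primitive coordinates `x` -/
def height (x : Fin (N + 1) → ℤ) : ℕ := univ.sup fun j => (x j).natAbs

/-- the `2 × 2` minors `x_a y_b - x_b y_a`: as linear forms in `x` they generate the ideal of the
point `y` -/
def minor (x y : Fin (N + 1) → ℤ) (p : Fin (N + 1) × Fin (N + 1)) : ℤ := x p.1 * y p.2 - x p.2 * y p.1

/-- the maximum of the absolute values of the minors -/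
def minorMax (x y : Fin (N + 1) → ℤ) : ℕ := univ.sup fun p => (minor x y p).natAbs

/-- the greatest common divisor of the minors -/
def minorGcd (x y : Fin (N + 1) → ℤ) : ℤ := univ.gcd fun p => minor x y p

/-- the height `h_E(x)` for the exceptional divisor `E` over `y` (`x`, `y` primitive): the sum over
all places `v` of `-log (max |minor|_v / (|x|_v |y|_v))` -/
noncomputable def exceptionalHeight (x y : Fin (N + 1) → ℤ) : ℝ :=
  Real.log ((height x : ℝ) * (height y : ℝ) * (minorGcd x y : ℝ) / (minorMax x y : ℝ))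

/-- the proximity function `m_{S,E}(x)` for the exceptional divisor `E` over `y`: the sum of the
local heights over the infinite place and the primes of `S` -/
noncomputable def proximity (S : Finset Nat.Primes) (x y : Fin (N + 1) → ℤ) : ℝ :=
  Real.log ((height x : ℝ) * (height y : ℝ) / (minorMax x y : ℝ)) +
    ∑ p ∈ S, (padicValInt p (minorGcd x y) : ℝ) * Real.log ((p : ℕ) : ℝ)

/-- the height `h_K = (N - 1) ∑ h_{E i} - (N + 1) h` for the canonical divisor of the blow-up in the
points `P i` -/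
noncomputable def canonicalHeight (P : Fin r → Fin (N + 1) → ℤ) (x : Fin (N + 1) → ℤ) : ℝ :=
  ((N : ℝ) - 1) * ∑ i, exceptionalHeight x (P i) - ((N : ℝ) + 1) * Real.log (height x)

/-- `x` as a rational vector -/
def rat (x : Fin (N + 1) → ℤ) : Fin (N + 1) → ℚ := fun j => (x j : ℚ)

/-- the rational points of height at most `B` with the property `A`, in the span of no `N` of the
points `P i` (so off a finite union of hyperplanes) -/
def points (P : Fin r → Fin (N + 1) → ℤ) (B : ℝ) (A : (Fin (N + 1) → ℤ) → Prop) :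
    Set (Fin (N + 1) → ℤ) :=
  {x | IsPrimitive x ∧ (height x : ℝ) ≤ B ∧
    (∀ s : Finset (Fin r), s.card = N → rat x ∉ Submodule.span ℚ ((fun i => rat (P i)) '' s)) ∧ A x}

open Pool.Agent.K1H71.BP

theorem points_finite (P : Fin r → Fin (N + 1) → ℤ) (B : ℝ) (A : (Fin (N + 1) → ℤ) → Prop) :
    (points P B A).Finite := by
  classical
  have hsub : points P B A ⊆
      (Fintype.piFinset fun _ : Fin (N + 1) => Finset.Icc (-(⌊B⌋₊ : ℤ)) ⌊B⌋₊ : Finset _) := by
    intro x hx
    rw [Finset.mem_coe, Fintype.mem_piFinset]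
    intro i
    have h1 : ht x ≤ ⌊B⌋₊ := Nat.le_floor hx.2.1
    have h2 := le_ht x i
    rw [Finset.mem_Icc, ← abs_le]
    exact h2.trans (by exact_mod_cast h1)
  exact (Finset.finite_toSet _).subset hsub

theorem exc_eq (x y : Fin (N + 1) → ℤ) :
    exceptionalHeight x y = Real.log (ht y * eh x y) := by
  unfold exceptionalHeight eh
  congr 1
  change ((ht x : ℕ) : ℝ) * (ht y : ℕ) * (gd x y : ℤ) / (wd x y : ℕ) = _
  ring

theorem gen_of {n : ℕ} (hr : n + 1 ≤ r) (P : Fin r → Fin (n + 2) → ℤ)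
    (hind : ∀ s : Finset (Fin r), s.card = n + 1 → LinearIndependent ℚ fun i : s => rat (P i)) :
    Gen n univ P := by
  classical
  refine ⟨by simpa using hr, fun s _ hsc i _ his => ?_⟩
  have h1 := hind (insert i s) (by rw [Finset.card_insert_of_notMem his, hsc])
  have h2 := h1.notMem_span_image (s := {j | j.1 ∈ s}) (x := ⟨i, Finset.mem_insert_self i s⟩) his
  intro h3
  apply h2
  refine Submodule.span_mono ?_ h3
  rintro _ ⟨j, hj, rfl⟩
  exact ⟨⟨j, Finset.mem_insert_of_mem (by exact_mod_cast hj)⟩, by exact_mod_cast hj, rfl⟩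

theorem iff_vio {n : ℕ} (hn : 1 ≤ n) (P : Fin r → Fin (n + 2) → ℤ) (hP : ∀ i, IsPrimitive (P i))
    (hQ : Gen n univ P) (κ c B : ℝ) (x : Fin (n + 2) → ℤ) :
    x ∈ points P B (fun x => κ * Real.log (height x) + c ≤ ∑ i, exceptionalHeight x (P i)) ↔
      Vio n r P κ (Real.exp c / ∏ i, (ht (P i) : ℝ)) x ∧ (ht x : ℝ) ≤ B := by
  have hht : ∀ i, (0 : ℝ) < ht (P i) := fun i => by
    have h1 : (1 : ℤ) ≤ ht (P i) := one_le_ht (ne_zero_of_prim (hP i))
    have : (1 : ℝ) ≤ ht (P i) := by exact_mod_cast h1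
    linarith
  have hprod : 0 < ∏ i, (ht (P i) : ℝ) := Finset.prod_pos fun i _ => hht i
  have hmne : (∀ s : Finset (Fin r), s.card = n + 1 → Off P s x) → ∀ j, ∃ b d, mn x (P j) b d ≠ 0 := by
    intro hoff j
    obtain ⟨k, rfl⟩ := Nat.exists_eq_add_of_le' hn
    obtain ⟨s, hks, _, hsc⟩ := Finset.exists_subsuperset_card_eq
      (Finset.singleton_subset_iff.2 (mem_univ j)) (by simp) (show k + 1 + 1 ≤ _ from hQ.card)
    exact (hoff s hsc).mn_ne (Finset.singleton_subset_iff.1 hks) (hQ.ne_zero (mem_univ j))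
  have key : Pr x → (∀ s : Finset (Fin r), s.card = n + 1 → Off P s x) →
      (κ * Real.log (height x) + c ≤ ∑ i, exceptionalHeight x (P i) ↔
      Real.exp c / (∏ i, (ht (P i) : ℝ)) * (ht x : ℝ) ^ κ ≤ ∏ j, eh x (P j)) := by
    intro hx hoff
    have hmn := hmne hoff
    have hx0 : (0 : ℝ) < ht x := by
      have h1 : (1 : ℤ) ≤ ht x := one_le_ht (ne_zero_of_prim hx)
      have : (1 : ℝ) ≤ ht x := by exact_mod_cast h1
      linarith
    have heh : ∀ i, 0 < eh x (P i) := by
      intro i
      have h1 := one_le_eh (hmn i)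
      have h2 := hht i
      have h3 := eh_nonneg x (P i)
      rcases h3.lt_or_eq with h4 | h4
      · exact h4
      · rw [← h4] at h1
        norm_num at h1
    have h1 : ∑ i, exceptionalHeight x (P i) = Real.log ((∏ i, (ht (P i) : ℝ)) * ∏ j, eh x (P j)) := by
      rw [← Finset.prod_mul_distrib, Real.log_prod fun i _ => (mul_pos (hht i) (heh i)).ne']
      exact Finset.sum_congr rfl fun i _ => exc_eq x (P i)
    have h2 : 0 < (∏ i, (ht (P i) : ℝ)) * ∏ j, eh x (P j) :=
      mul_pos hprod (Finset.prod_pos fun i _ => heh i)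
    rw [h1, Real.le_log_iff_exp_le h2, Real.exp_add, div_mul_eq_mul_div, div_le_iff₀ hprod]
    have h3 : Real.exp (κ * Real.log (height x)) = (ht x : ℝ) ^ κ := by
      rw [Real.rpow_def_of_pos hx0, mul_comm]
      rfl
    rw [h3, mul_comm ((ht x : ℝ) ^ κ), mul_comm (∏ j, eh x (P j))]
  constructor
  · rintro ⟨h1, h2, h3, h4⟩
    exact ⟨⟨h1, h3, (key h1 h3).1 h4⟩, h2⟩
  · rintro ⟨⟨h1, h3, h4⟩, h2⟩
    exact ⟨h1, h2, h3, (key h1 h3).2 h4⟩

theorem upper {n : ℕ} (hn : 1 ≤ n) (hr : n + 1 ≤ r) (P : Fin r → Fin (n + 2) → ℤ)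
    (hP : ∀ i, IsPrimitive (P i)) (hQ : Gen n univ P) {κ : ℝ} (hκ : 0 ≤ κ) (c : ℝ) {ε : ℝ}
    (hε : 0 < ε) : ∃ C : ℝ, ∀ B : ℝ, 1 ≤ B →
      ((points P B fun x => κ * Real.log (height x) + c ≤
        ∑ i, exceptionalHeight x (P i)).ncard : ℝ) ≤ C * B ^ (max (bet n r κ) 0 + ε) := by
  classical
  have hprod : 0 < ∏ i, (ht (P i) : ℝ) := Finset.prod_pos fun i _ => by
    have h1 : (1 : ℤ) ≤ ht (P i) := one_le_ht (ne_zero_of_prim (hP i))
    have : (1 : ℝ) ≤ ht (P i) := by exact_mod_cast h1
    linarith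
  obtain ⟨C, _, hC⟩ := total_bound hn hr P hQ hκ
    (show 0 < Real.exp c / ∏ i, (ht (P i) : ℝ) by positivity) hε
  refine ⟨C, fun B hB => ?_⟩
  have hfin := points_finite P B
    (fun x => κ * Real.log (height x) + c ≤ ∑ i, exceptionalHeight x (P i))
  rw [Set.ncard_eq_toFinset_card _ hfin]
  refine hC B hB _ fun x hx => ?_
  rw [Set.Finite.mem_toFinset] at hx
  exact (iff_vio hn P hP hQ κ c B x).1 hx

theorem mono (P : Fin r → Fin (N + 1) → ℤ) (B : ℝ) {A A' : (Fin (N + 1) → ℤ) → Prop}
    (h : ∀ x ∈ points P B A, A' x) : (points P B A).ncard ≤ (points P B A').ncard :=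
  Set.ncard_le_ncard (fun x hx => ⟨hx.1, hx.2.1, hx.2.2.1, h x hx⟩) (points_finite P B A')

theorem exc_ge {n : ℕ} (hn : 1 ≤ n) (P : Fin r → Fin (n + 2) → ℤ) (hP : ∀ i, IsPrimitive (P i))
    (hQ : Gen n univ P) {B : ℝ} {A : (Fin (n + 2) → ℤ) → Prop} {x : Fin (n + 2) → ℤ}
    (hx : x ∈ points P B A) (i : Fin r) : ∃ b d, mn x (P i) b d ≠ 0 := by
  obtain ⟨k, rfl⟩ := Nat.exists_eq_add_of_le' hn
  obtain ⟨s, hks, _, hsc⟩ := Finset.exists_subsuperset_card_eq
    (Finset.singleton_subset_iff.2 (mem_univ i)) (by simp) (show k + 1 + 1 ≤ _ from hQ.card)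
  exact Off.mn_ne (show Off P s x from hx.2.2.1 s hsc) (Finset.singleton_subset_iff.1 hks)
    (ne_zero_of_prim (hP i))

theorem exc_lower {x y : Fin (N + 1) → ℤ} (h : ∃ b d, mn x y b d ≠ 0) :
    -Real.log 2 ≤ exceptionalHeight x y := by
  rw [exc_eq, ← Real.log_inv]
  refine Real.log_le_log (by norm_num) ?_
  have := one_le_eh h
  linarith

theorem prod_pow_dvd (S : Finset Nat.Primes) (g : ℕ) (hg : g ≠ 0) :
    (∏ p ∈ S, (p : ℕ) ^ padicValNat p g) ∣ g := by
  classical
  induction S using Finset.induction_on with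
  | empty => simp
  | insert q S hq ih =>
    rw [Finset.prod_insert hq]
    refine Nat.Coprime.mul_dvd_of_dvd_of_dvd ?_ pow_padicValNat_dvd ih
    refine Nat.Coprime.prod_right fun p hp => Nat.Coprime.pow _ _ ?_
    refine (Nat.coprime_primes q.2 p.2).2 fun h => hq ?_
    have : q = p := Subtype.ext h
    rwa [this]

theorem prox_le (S : Finset Nat.Primes) {x y : Fin (N + 1) → ℤ} (hx : ∃ i, x i ≠ 0)
    (hy : ∃ i, y i ≠ 0) (h : ∃ b d, mn x y b d ≠ 0) :
    proximity S x y ≤ exceptionalHeight x y := by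
  have hx0 : (0 : ℝ) < ht x := by
    have h1 : (1 : ℤ) ≤ ht x := one_le_ht hx
    have : (1 : ℝ) ≤ ht x := by exact_mod_cast h1
    linarith
  have hy0 : (0 : ℝ) < ht y := by
    have h1 : (1 : ℤ) ≤ ht y := one_le_ht hy
    have : (1 : ℝ) ≤ ht y := by exact_mod_cast h1
    linarith
  have hw : (0 : ℝ) < wd x y := by exact_mod_cast wd_pos h
  have hg := gd_pos h
  have hgR : (0 : ℝ) < gd x y := by exact_mod_cast hg
  have h1 : exceptionalHeight x y = Real.log (ht x * ht y / wd x y) + Real.log (gd x y) := by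
    rw [← Real.log_mul (by positivity) hgR.ne']
    change Real.log (ht x * ht y * gd x y / wd x y) = _
    congr 1
    ring
  rw [h1]
  refine add_le_add le_rfl ?_
  change ∑ p ∈ S, (padicValInt p (gd x y) : ℝ) * Real.log ((p : ℕ) : ℝ) ≤ _
  set g : ℕ := (gd x y).natAbs with hgd
  have hg0 : g ≠ 0 := Int.natAbs_ne_zero.2 hg.ne'
  have hgg : (gd x y : ℝ) = (g : ℝ) := by
    rw [hgd, Nat.cast_natAbs, abs_of_pos hg]
  have h2 : ∑ p ∈ S, (padicValInt p (gd x y) : ℝ) * Real.log ((p : ℕ) : ℝ) =
      Real.log ((∏ p ∈ S, (p : ℕ) ^ padicValNat p g : ℕ) : ℝ) := by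
    rw [Nat.cast_prod, Real.log_prod fun p _ => by
      have := p.2.pos
      positivity]
    refine Finset.sum_congr rfl fun p _ => ?_
    rw [Nat.cast_pow, Real.log_pow]
    rfl
  rw [h2, hgg]
  have h3 : 0 < ∏ p ∈ S, (p : ℕ) ^ padicValNat p g := Finset.prod_pos fun p _ => by
    have := p.2.pos
    positivity
  refine Real.log_le_log (by exact_mod_cast h3) ?_
  exact_mod_cast Nat.le_of_dvd (Nat.pos_of_ne_zero hg0) (prod_pow_dvd S g hg0)

/-- **Main theorem.** Let `P i`, `i < r`, be rational points of the projective space of dimension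
`N ≥ 2`, `r ≥ N`, any `N` of them linearly independent, and `ε > 0`. Off the spans of `N` of them:
(1) for `κ ≥ 0` and real `c` at most `C * B ^ (max (N + 1 - (N - 1) κ) (3 - κ) (2 - 2 (N - 1) κ / r)
0 + ε)` points of height at most `B` satisfy `κ h(x) + c ≤ ∑ h_{E i}(x)`;
(2) if `κ < 1`, at least `B ^ (N + 1 - (N - 1) κ - ε)` points do, for all large `B`;
(3) `h_K(x) ≥ c` for at most `C * B ^ (2 - min (2 / (N - 1)) (2 (N + 1) / r) + ε)` of them;
(4) for each set of indices `I` and each finite set of places `S` containing the infinite one, with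
`D = ∑ i ∈ I, E i`: `m_{S,D}(x) + h_K(x) ≥ c` for at most
`C * B ^ (2 - min (1 / N) (2 (N ^ 2 - 1) / (N r)) + ε)` of them. -/
theorem result (hN : 2 ≤ N) (hr : N ≤ r) (P : Fin r → Fin (N + 1) → ℤ)
    (hP : ∀ i, IsPrimitive (P i))
    (hind : ∀ s : Finset (Fin r), s.card = N → LinearIndependent ℚ fun i : s => rat (P i))
    (ε : ℝ) (hε : 0 < ε) :
    (∀ κ c : ℝ, 0 ≤ κ → ∃ C : ℝ, ∀ B : ℝ, 1 ≤ B →
      ((points P B fun x => κ * Real.log (height x) + c ≤
        ∑ i, exceptionalHeight x (P i)).ncard : ℝ) ≤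
      C * B ^ (max (max ((N : ℝ) + 1 - ((N : ℝ) - 1) * κ) (3 - κ))
        (max (2 - 2 * ((N : ℝ) - 1) * κ / (r : ℝ)) 0) + ε)) ∧
    (∀ κ c : ℝ, 0 ≤ κ → κ < 1 → ∃ B₀ : ℝ, ∀ B : ℝ, B₀ ≤ B →
      B ^ ((N : ℝ) + 1 - ((N : ℝ) - 1) * κ - ε) ≤
      ((points P B fun x => κ * Real.log (height x) + c ≤
        ∑ i, exceptionalHeight x (P i)).ncard : ℝ)) ∧
    (∀ c : ℝ, ∃ C : ℝ, ∀ B : ℝ, 1 ≤ B →
      ((points P B fun x => c ≤ canonicalHeight P x).ncard : ℝ) ≤
      C * B ^ (2 - min (2 / ((N : ℝ) - 1)) (2 * ((N : ℝ) + 1) / (r : ℝ)) + ε)) ∧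
    (∀ (I : Finset (Fin r)) (S : Finset Nat.Primes) (c : ℝ), ∃ C : ℝ, ∀ B : ℝ, 1 ≤ B →
      ((points P B fun x => c ≤ (∑ i ∈ I, proximity S x (P i)) + canonicalHeight P x).ncard : ℝ) ≤
      C * B ^ (2 - min (1 / (N : ℝ)) (2 * ((N : ℝ) ^ 2 - 1) / ((N : ℝ) * (r : ℝ))) + ε)) := by
  classical
  obtain ⟨n, rfl⟩ : ∃ n, N = n + 1 := ⟨N - 1, by omega⟩
  have hn : 1 ≤ n := by omega
  have hQ : Gen n univ P := gen_of hr P hind
  have hnR : (1 : ℝ) ≤ n := by exact_mod_cast hn
  have hrR : ((n : ℝ) + 1) ≤ r := by exact_mod_cast hr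
  have hr0 : (0 : ℝ) < r := by linarith
  have hbet : ∀ κ : ℝ, max (bet n r κ) 0 = max (max (((n + 1 : ℕ) : ℝ) + 1 - (((n + 1 : ℕ) : ℝ) - 1) * κ)
      (3 - κ)) (max (2 - 2 * (((n + 1 : ℕ) : ℝ) - 1) * κ / r) 0) := by
    intro κ
    unfold bet
    push_cast
    rw [max_assoc]
    have e1 : (n : ℝ) + 1 + 1 - (n + 1 - 1) * κ = n + 2 - n * κ := by ring
    have e2 : 2 - 2 * ((n : ℝ) + 1 - 1) * κ / r = 2 - 2 * n * κ / r := by ring
    rw [e1, e2]
  refine ⟨?_, ?_, ?_, ?_⟩
  · intro κ c hκ
    obtain ⟨C, hC⟩ := upper hn hr P hP hQ hκ c hε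
    refine ⟨C, fun B hB => ?_⟩
    rw [← hbet κ]
    exact hC B hB
  · intro κ c hκ hκ1
    have hprod : 0 < ∏ i, (ht (P i) : ℝ) := Finset.prod_pos fun i _ => by
      have h1 : (1 : ℤ) ≤ ht (P i) := one_le_ht (ne_zero_of_prim (hP i))
      have : (1 : ℝ) ≤ ht (P i) := by exact_mod_cast h1
      linarith
    have h1 := many hn hr P hQ hP hκ hκ1
      (show 0 < Real.exp c / ∏ i, (ht (P i) : ℝ) by positivity) hε
    obtain ⟨B₀, hB₀⟩ := Filter.eventually_atTop.1 h1
    refine ⟨B₀, fun B hB => ?_⟩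
    obtain ⟨S, hS, hcard⟩ := hB₀ B hB
    have e1 : ((n + 1 : ℕ) : ℝ) + 1 - (((n + 1 : ℕ) : ℝ) - 1) * κ - ε = n + 2 - n * κ - ε := by
      push_cast
      ring
    rw [e1]
    refine hcard.trans ?_
    have hsub : (S : Set (Fin (n + 2) → ℤ)) ⊆ points P B fun x => κ * Real.log (height x) + c ≤
        ∑ i, exceptionalHeight x (P i) := by
      intro x hx
      exact (iff_vio hn P hP hQ κ c B x).2 (hS x hx)
    have h2 := Set.ncard_le_ncard hsub (points_finite P B _)
    rw [Set.ncard_coe_finset] at h2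
    exact_mod_cast h2
  · intro c
    set κ : ℝ := (n + 2) / n with hκd
    have hκ : 0 ≤ κ := by positivity
    obtain ⟨C, hC⟩ := upper hn hr P hP hQ hκ (c / n) hε
    refine ⟨C, fun B hB => ?_⟩
    have h1 := hC B hB
    have h2 := mono P B (A := fun x => c ≤ canonicalHeight P x)
      (A' := fun x => κ * Real.log (height x) + c / n ≤ ∑ i, exceptionalHeight x (P i)) (by
        intro x hx
        have h3 : c ≤ canonicalHeight P x := hx.2.2.2
        unfold canonicalHeight at h3
        push_cast at h3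
        have h4 : κ * Real.log (height x) + c / n = ((n + 2) * Real.log (height x) + c) / n := by
          rw [hκd]
          ring
        change κ * Real.log (height x) + c / n ≤ ∑ i, exceptionalHeight x (P i)
        rw [h4, div_le_iff₀ (by linarith)]
        linarith)
    have h3 : ((points P B fun x => c ≤ canonicalHeight P x).ncard : ℝ) ≤
        ((points P B fun x => κ * Real.log (height x) + c / n ≤
          ∑ i, exceptionalHeight x (P i)).ncard : ℝ) := by exact_mod_cast h2
    refine h3.trans (h1.trans_eq ?_)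
    congr 2
    congr 1
    unfold bet
    have e1 : (n : ℝ) + 2 - n * κ = 0 := by
      rw [hκd]
      field_simp
      ring
    have e2 : 3 - κ = 2 - 2 / n := by
      rw [hκd]
      field_simp
      ring
    have e3 : 2 - 2 * (n : ℝ) * κ / r = 2 - 2 * (n + 2) / r := by
      rw [hκd]
      field_simp
    have e4 : (2 : ℝ) / (((n + 1 : ℕ) : ℝ) - 1) = 2 / n := by
      push_cast
      congr 1
      ring
    have e5 : 2 * (((n + 1 : ℕ) : ℝ) + 1) / r = 2 * (n + 2) / r := by
      push_cast
      ring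
    have e6 : (0 : ℝ) ≤ 2 - 2 / n := by
      have : (2 : ℝ) / n ≤ 2 := by
        rw [div_le_iff₀ (by linarith)]
        linarith
      linarith
    rw [e1, e2, e3, e4, e5, max_eq_right e6, max_sub_sub_left]
    have e7 : (0 : ℝ) ≤ 2 - min (2 / (n : ℝ)) (2 * (n + 2) / r) :=
      e6.trans (sub_le_sub_left (min_le_left _ _) _)
    rw [max_eq_left e7]
  · intro I S c
    set κ : ℝ := (n + 2) / (n + 1) with hκd
    have hκ : 0 ≤ κ := by positivity
    set c' : ℝ := (c - r * Real.log 2) / (n + 1) with hc'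
    obtain ⟨C, hC⟩ := upper hn hr P hP hQ hκ c' hε
    refine ⟨C, fun B hB => ?_⟩
    have h1 := hC B hB
    have h2 := mono P B
      (A := fun x => c ≤ (∑ i ∈ I, proximity S x (P i)) + canonicalHeight P x)
      (A' := fun x => κ * Real.log (height x) + c' ≤ ∑ i, exceptionalHeight x (P i)) (by
        intro x hx
        have h3 : c ≤ (∑ i ∈ I, proximity S x (P i)) + canonicalHeight P x := hx.2.2.2
        have h5 : ∑ i ∈ I, proximity S x (P i) ≤
            ∑ i ∈ I, (exceptionalHeight x (P i) + Real.log 2) := by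
          refine Finset.sum_le_sum fun i _ => ?_
          have h6 := prox_le S (ne_zero_of_prim hx.1) (ne_zero_of_prim (hP i))
            (exc_ge hn P hP hQ hx i)
          have h7 : 0 < Real.log 2 := Real.log_pos (by norm_num)
          linarith
        have h6 : ∑ i ∈ I, (exceptionalHeight x (P i) + Real.log 2) ≤
            ∑ i, (exceptionalHeight x (P i) + Real.log 2) := by
          refine Finset.sum_le_sum_of_subset_of_nonneg (Finset.subset_univ I) fun i _ _ => ?_
          have := exc_lower (exc_ge hn P hP hQ hx i)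
          linarith
        have h7 : ∑ i, (exceptionalHeight x (P i) + Real.log 2) =
            ∑ i, exceptionalHeight x (P i) + r * Real.log 2 := by
          rw [Finset.sum_add_distrib, Finset.sum_const, Finset.card_univ, Fintype.card_fin,
            nsmul_eq_mul]
        rw [h7] at h6
        unfold canonicalHeight at h3
        push_cast at h3
        have h4 : κ * Real.log (height x) + c' =
            ((n + 2) * Real.log (height x) + (c - r * Real.log 2)) / (n + 1) := by
          rw [hκd, hc']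
          ring
        change κ * Real.log (height x) + c' ≤ ∑ i, exceptionalHeight x (P i)
        rw [h4, div_le_iff₀ (by linarith)]
        linarith)
    have h3 : ((points P B fun x => c ≤ (∑ i ∈ I, proximity S x (P i)) +
        canonicalHeight P x).ncard : ℝ) ≤
        ((points P B fun x => κ * Real.log (height x) + c' ≤
          ∑ i, exceptionalHeight x (P i)).ncard : ℝ) := by exact_mod_cast h2
    refine h3.trans (h1.trans_eq ?_)
    congr 2
    congr 1
    unfold bet
    have hn1 : (0 : ℝ) < n + 1 := by linarith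
    have e1 : (n : ℝ) + 2 - n * κ ≤ 3 - κ := by
      rw [hκd, ← sub_nonneg]
      have : 3 - ((n : ℝ) + 2) / (n + 1) - (n + 2 - n * ((n + 2) / (n + 1))) = (n - 1) / (n + 1) := by
        field_simp
        ring
      rw [this]
      have : (0 : ℝ) ≤ n - 1 := by linarith
      positivity
    have e2 : 3 - κ = 2 - 1 / ((n + 1 : ℕ) : ℝ) := by
      rw [hκd]
      push_cast
      field_simp
      ring
    have e3 : 2 - 2 * (n : ℝ) * κ / r =
        2 - 2 * (((n + 1 : ℕ) : ℝ) ^ 2 - 1) / (((n + 1 : ℕ) : ℝ) * r) := by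
      rw [hκd]
      push_cast
      field_simp
      ring
    have e6 : (0 : ℝ) ≤ 2 - 1 / ((n + 1 : ℕ) : ℝ) := by
      push_cast
      have : (1 : ℝ) / (n + 1) ≤ 1 := by
        rw [div_le_iff₀ (by linarith)]
        linarith
      linarith
    rw [max_eq_right e1, e2, e3, max_sub_sub_left]
    exact max_eq_left (e6.trans (sub_le_sub_left (min_le_left _ _) _))

end Pool.Agent.Results.MP_17a322_nt.BlownUpPoints
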