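import Pool.Agent.K1H59.VX.Shell
import Pool.Agent.K1H70.EL.Elim
import Pool.Agent.K1H31.VX.U1
import Pool.Agent.K1H30.VX.U2
import Pool.Agent.K1H47.VXT.TB
import Pool.Agent.K1H4.VX.Fam
import Pool.Agent.K1H7.VX.Plc
import Pool.Agent.K1H52.VX.Fin

set_option autoImplicit false

/-!
# The exceptional points of Vojta's inequality on `ℙ^N`: fewer than the points of a hyperplane

Let `N ≥ 2`, `D = D_1 + ⋯ + D_q` a strict normal crossings divisor of `ℙ^N` over `ℚ`, where the `D_j` are distinct and
irreducible over `ℚ`, of any degrees, `S` a finite set of places which contains the infinite one, and `κ > N`. The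
theorem: there is `θ > 0` such that at most `C B ^ (N - θ)` rational points `x` of height at most `B` off `D` satisfy
`m_{S,D}(x) ≥ κ h(x) + c`. For `κ = N + 1 + ε` these are the points at which Vojta's inequality fails.

The starting file `NormalCrossings` (`Pool/Agent/TH42/NC/`) has `C B ^ (N + δ)`, the number of points of a hyperplane
up to `B ^ δ`, for all `κ ≥ 1`; its proof only uses that a line parallel to an axis meets a component in few clusters,
and cannot give less, because the number of the lines is `B ^ N`. Here `D` is seen in two dimensions.

Proof.
* *Coordinates.* (`K1H4/VX/Fam.lean`, `K1H7/VX/Plc.lean`, `K1H76/VX/T4.lean`) For `x` there is a direction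
  `(1, t, t², …)`, with `t` in a finite set, which is transversal at all the places of `S` at once to one component
  near to `x` at this place (Vandermonde, compactness); it is made the first coordinate axis.
* *One component of degree `≥ 2` is near at a place.* (`K1H59/VX/Core1.lean`, `Core2.lean`, `Loc.lean`, `LocC.lean`)
  All coordinates but `y_0, y_1` are fixed. In this plane the points of a small cell at which the same components are
  near at all the places of `S` lie on arcs of curves, real and `p`-adic, and any three of them span a triangle whose
  area is so small, in the product over the places, that it is zero by the product formula: they are collinear. If the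
  curve of the component is not flat in the cell, its points on a line are in two clusters, which are too small to
  contain more than one point. This saves a power of `B`, because there are few cells.
* *All near components are hyperplanes.* (`Core2.lean`) If the near components are different at two places, one uses
  two independent linear forms which are both small (`K1H31/VX/U1.lean`); if the same hyperplane were near at all
  places with `κ > 1`, the product formula would be violated.
* *Flat points and two near components at one place.* Then the point `(y_1, …, y_N)` is near to a hypersurface, the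
  zeros of a resultant (`K1H70/EL/Elim.lean`, `K1H47/VXT/TB.lean`, `K1H60/VX/Shear.lean`: the second fundamental form
  in the direction of the plane is not identically zero on an irreducible hypersurface of degree at least two), and
  their number is at most `C B ^ (N - θ)` by the main theorem of the starting file `HypersurfacesSparse`
  (`Pool/Agent/H951R3/`), applied to this hypersurface of `ℙ^(N-1)`.

Earlier work. The bounds for rational points near real curves and hypersurfaces by means of determinants of three or
more points: Swinnerton-Dyer, Huxley, Bombieri-Pila, Vaughan-Velani, Beresnevich, and by harmonic analysis J.-J. Huang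
(manifolds of nonvanishing curvature). New: the power saving in Vojta's conjecture for all strict normal crossings
divisors, for several places and several components at once, with flat points and crossings.

Written by several seats of the team: helper59 (plan, cells, shells), helper4, helper7, helper30, helper31, helper45,
helper47, helper52, helper60, helper70, helper76 (the pieces named above).
-/

namespace Pool.Agent.Results.MP_17a322_nt.FewerThanAHyperplane

/-- `x` is a primitive integer vector; every rational point of `ℙ^N` is represented by exactly two
of them, `x` and `-x` -/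
def IsPrimitive {N : ℕ} (x : Fin (N + 1) → ℤ) : Prop :=
  Finset.univ.gcd x = 1

/-- `max |x_i|`, the multiplicative height of the point given by a primitive `x` -/
def height {N : ℕ} (x : Fin (N + 1) → ℤ) : ℕ :=
  Finset.univ.sup (fun i => (x i).natAbs)

/-- The proximity function `m_{S,D}(x)` of the divisor `D` with the components `F j = 0` of degrees
`d j`, for the places `∞` and `p ∈ S`, at a primitive `x` off `D`: the local height of `F j = 0` at
`∞` is `log (max |x_i| ^ d j / |F j x|)`, the local height at `p` is
`log (1 / |F j x|_p) = ord_p (F j x) log p`. -/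
noncomputable def proximity {N q : ℕ} (F : Fin q → MvPolynomial (Fin (N + 1)) ℤ) (d : Fin q → ℕ)
    (S : Finset ℕ) (x : Fin (N + 1) → ℤ) : ℝ :=
  ∑ j, (Real.log ((height x : ℝ) ^ d j / |((MvPolynomial.eval x (F j) : ℤ) : ℝ)|) +
    ∑ p ∈ S, (padicValInt p (MvPolynomial.eval x (F j)) : ℝ) * Real.log p)

/-- the form with integer coefficients as a form over `ℚ` -/
noncomputable def overRat {N : ℕ} (F : MvPolynomial (Fin (N + 1)) ℤ) : MvPolynomial (Fin (N + 1)) ℚ :=
  MvPolynomial.map (Int.castRingHom ℚ) F

/-- The divisor `∑ j, {F j = 0}` has strict normal crossings at its points over the field `K`: at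
every point `z` the gradients of those `F j` that vanish at `z` are linearly independent, so these
components are smooth at `z` and meet transversally. -/
def NormalCrossingsOver {N q : ℕ} (F : Fin q → MvPolynomial (Fin (N + 1)) ℤ) (K : Type) [Field K] :
    Prop :=
  ∀ z : Fin (N + 1) → K, z ≠ 0 →
    LinearIndependent K (fun j : {j : Fin q // MvPolynomial.aeval z (F j) = 0} =>
      fun i => MvPolynomial.aeval z (MvPolynomial.pderiv i (F j.1)))

/-- **Main theorem.** Let `N ≥ 2`, let `D = ∑ j, {F j = 0}` be a divisor of `ℙ^N` over `ℚ` whose components are
irreducible over `ℚ`, distinct, of arbitrary degrees, with strict normal crossings (at the points over all fields of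
characteristic zero), and `κ > N`. Then there is `θ > 0` such that for all `B ≥ 1` at most `C * B ^ (N - θ)` rational
points of `ℙ^N` of height at most `B` off `D` satisfy `κ h(x) + c ≤ m_{S,D}(x)`. -/
theorem result (N q : ℕ) (hN : 2 ≤ N) (F : Fin q → MvPolynomial (Fin (N + 1)) ℤ) (d : Fin q → ℕ)
    (hF : ∀ j, (F j).IsHomogeneous (d j)) (hirr : ∀ j, Irreducible (overRat (F j)))
    (hdist : ∀ j k, j ≠ k → ¬ (overRat (F j) ∣ overRat (F k)))
    (hnc : ∀ (K : Type) [Field K] [CharZero K], NormalCrossingsOver F K)
    (S : Finset ℕ) (hS : ∀ p ∈ S, p.Prime) (κ c : ℝ) (hκ : (N : ℝ) < κ) :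
    ∃ θ C : ℝ, 0 < θ ∧ 0 < C ∧ ∀ B : ℝ, 1 ≤ B →
      {x : Fin (N + 1) → ℤ | IsPrimitive x ∧ (height x : ℝ) ≤ B ∧
        (∀ j, MvPolynomial.eval x (F j) ≠ 0) ∧
        κ * Real.log (height x) + c ≤ proximity F d S x}.Finite ∧
      ({x : Fin (N + 1) → ℤ | IsPrimitive x ∧ (height x : ℝ) ≤ B ∧
        (∀ j, MvPolynomial.eval x (F j) ≠ 0) ∧
        κ * Real.log (height x) + c ≤ proximity F d S x}.ncard : ℝ) ≤
          C * B ^ ((N : ℝ) - θ) := by
  obtain ⟨m, rfl⟩ : ∃ m, N = m + 1 := ⟨N - 1, by omega⟩
  have hm : 1 ≤ m := by omega
  have hfin := Pool.Agent.K1H52.VX.t_FINAL (Pool.Agent.K1H59.VX.shell Pool.Agent.K1H4.VX.t_FAM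
    Pool.Agent.K1H7.VX.t_PLC (Pool.Agent.K1H47.VXT.t_TB Pool.Agent.K1H30.VX.loc) Pool.Agent.K1H70.EL.t_ELIM
    Pool.Agent.K1H31.VX.t_GCL0 Pool.Agent.K1H30.VX.loc)
  have hκ' : (m : ℝ) + 1 < κ := by
    have : ((m + 1 : ℕ) : ℝ) = (m : ℝ) + 1 := by push_cast; ring
    linarith
  obtain ⟨θ, C, hθ, hC, h⟩ := hfin m q F d hm ⟨hF, hirr, hdist, fun K _ _ => hnc K⟩ S hS κ c hκ'
  refine ⟨θ, C, hθ, hC, fun B hB => ?_⟩
  have h1 := h B hB
  have h2 : ((m + 1 : ℕ) : ℝ) - θ = (m : ℝ) + 1 - θ := by push_cast; ring
  rw [h2]
  exact h1

end Pool.Agent.Results.MP_17a322_nt.FewerThanAHyperplane
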