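import Pool.Agent.K1H85.TV.Main
import Pool.Agent.K1H85.TV.Cox

set_option autoImplicit false

/-!
# Vojta's inequality on every smooth complete split toric variety over `ℚ`, with respect to any
strict normal crossings divisor: the exceptional points with boundary heights at least `Y` and
anticanonical height at most `B` number at most `C * B ^ (1 + δ) / Y`

`X` is the smooth complete toric variety of a fan with the rays `v i ∈ ℤ ^ d`, `i < n`, and the
maximal cones `s ∈ Sg` (sets of rays). `D_i` is the invariant prime divisor of the ray `v i`,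
`- K_X = ∑ D_i`. The Picard group is the group of the `a ∈ ℤ ^ n` (the divisor `∑ a i D_i`) modulo
the vectors `(∑ k, u k * v i k)_i`. Rational points are given by their integral Cox coordinates.
-/

namespace Pool.Agent.Results.MP_17a322_nt.ToricVarieties

/-- the `v i` are the rays and the `s ∈ Sg` the maximal cones of a smooth complete fan in `ℝ ^ d`:
the rays of each `s ∈ Sg` are a basis of `ℤ ^ d`, every vector of `ℝ ^ d` is in exactly one way a
combination of the rays with non-negative coefficients that vanish outside of some `s ∈ Sg` (the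
cones cover `ℝ ^ d` and meet in common faces), every ray belongs to some cone -/
structure SmoothCompleteFan {n d : ℕ} (v : Fin n → Fin d → ℤ) (Sg : Finset (Finset (Fin n))) :
    Prop where
  basis : ∀ s ∈ Sg, ∀ y : Fin d → ℤ, ∃! c : Fin n → ℤ,
    (∀ i, i ∉ s → c i = 0) ∧ ∀ k, ∑ i, c i * v i k = y k
  complete : ∀ y : Fin d → ℝ, ∃! c : Fin n → ℝ,
    (∀ i, 0 ≤ c i) ∧ (∃ s ∈ Sg, ∀ i, i ∉ s → c i = 0) ∧ ∀ k, ∑ i, c i * v i k = y k
  ray : ∀ i, ∃ s ∈ Sg, i ∈ s

/-- the integer vector `x` is primitive (integral Cox coordinates): for every prime `p` the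
coordinates outside of some cone are not divisible by `p` -/
def CoxPrimitive {n : ℕ} (Sg : Finset (Finset (Fin n))) (x : Fin n → ℤ) : Prop :=
  ∀ p : ℕ, p.Prime → ∃ s ∈ Sg, ∀ i, i ∉ s → ¬ (p : ℤ) ∣ x i

/-- `x` are integral Cox coordinates of the rational point `t` of the open torus of `X` -/
def CoxCoordinates {n d : ℕ} (v : Fin n → Fin d → ℤ) (Sg : Finset (Finset (Fin n)))
    (t : Fin d → ℚ) (x : Fin n → ℤ) : Prop :=
  CoxPrimitive Sg x ∧ (∀ i, x i ≠ 0) ∧ ∀ k, ∏ i, (x i : ℚ) ^ v i k = t k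

/-- `b` is the size of the point with the Cox coordinates `x`: `b` is a positive real point of the
torus of the Picard group, `|x i| ≤ b i`, with equality outside of some cone. By the product
formula `b i = H_{D_i}(x)`, the height of the boundary divisor `D_i`: the local height at `∞` is
`log (b i / |x i|)`, at `p` it is `ord_p (x i) log p`. So `∏ b i` is the anticanonical height. -/
def IsSize {n d : ℕ} (v : Fin n → Fin d → ℤ) (Sg : Finset (Finset (Fin n))) (x : Fin n → ℤ)
    (b : Fin n → ℝ) : Prop :=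
  ((∀ i, 0 < b i) ∧ ∀ k, ∏ i, b i ^ v i k = 1) ∧
    ∃ s ∈ Sg, ∀ i, |(x i : ℝ)| ≤ b i ∧ (i ∉ s → |(x i : ℝ)| = b i)

/-- the polynomial `G` is homogeneous of the class of `∑ a i D_i` in the Cox ring of `X`:
`G = 0` is the divisor of a section of `O(∑ a i D_i)` -/
def OfClass {n d : ℕ} (v : Fin n → Fin d → ℤ) (G : MvPolynomial (Fin n) ℤ) (a : Fin n → ℤ) :
    Prop :=
  ∀ m ∈ G.support, ∃ u : Fin d → ℤ, ∀ i, (m i : ℤ) = a i + ∑ k, u k * v i k

/-- The divisor `D = ∑ j, {F j = 0}` of `X` has strict normal crossings at its points over the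
field `K`: at every point, given by Cox coordinates `z` in `K` (those outside of some cone are not
zero), the gradients of those `F j` that vanish at `z` are linearly independent, so these components
are smooth at the point and meet transversally. -/
def NormalCrossingsOver {n q : ℕ} (Sg : Finset (Finset (Fin n)))
    (F : Fin q → MvPolynomial (Fin n) ℤ) (K : Type) [Field K] : Prop :=
  ∀ z : Fin n → K, (∃ s ∈ Sg, ∀ i, i ∉ s → z i ≠ 0) →
    LinearIndependent K (fun j : {j : Fin q // MvPolynomial.aeval z (F j) = 0} =>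
      fun i => MvPolynomial.aeval z (MvPolynomial.pderiv i (F j.1)))

/-- The proximity function `m_{S,D}(x)` of the divisor `D` with the components `F j = 0` of the
classes of `∑ a j i D_i`, for the places `∞` and `p ∈ S`, at a point off `D` with the Cox
coordinates `x` and the size `b`: the local height of `F j = 0` at `∞` is
`log (∏ b i ^ a j i / |F j x|) = - log |F j (x / b)|`, at `p` it is
`log (1 / |F j x|_p) = ord_p (F j x) log p`. -/
noncomputable def proximity {n q : ℕ} (F : Fin q → MvPolynomial (Fin n) ℤ)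
    (a : Fin q → Fin n → ℤ) (S : Finset ℕ) (b : Fin n → ℝ) (x : Fin n → ℤ) : ℝ :=
  ∑ j, (Real.log ((∏ i, b i ^ a j i) / |((MvPolynomial.eval x (F j) : ℤ) : ℝ)|) +
    ∑ p ∈ S, (padicValInt p (MvPolynomial.eval x (F j)) : ℝ) * Real.log p)

/-- **Main theorem.** Let `D = ∑ j, {F j = 0}` be a divisor on a smooth complete toric variety `X`
over `ℚ` whose components `D_j` have arbitrary classes, with strict normal crossings at the real
points and at the `p`-adic points, `p ∈ S`, of `X`; let `κ i ≥ 0` and `c`, `δ > 0` be real numbers.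
Then there is `C` such that for all `B, Y ≥ 1` the rational points `t` of the torus of `X`, off `D`,
of anticanonical height `∏ H_{D_i}(t) ≤ B`, with all `H_{D_i}(t) ≥ Y` and with
`m_{S,D}(t) ≥ ∑ κ i h_{D_i}(t) + c`, are finite in number, at most
`C B ^ (1 + δ) Y ^ (- min (∑ κ i) 1)`. Here `x` are the Cox coordinates and `b` is the size of `t`,
`b i = H_{D_i}(t)`; part of the theorem is that `x` and `b` exist for every rational point of the
torus (else the set would be infinite); `x` is unique up to signs and `b` is unique, see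
`Pool.Agent.K1H85.TV.cox_unique` and `Pool.Agent.K1H85.TV.size_unique`.
Vojta's conjecture concerns `∑ κ i D_i ~ - K_X + ε A`, where `κ i ≥ 1`: the bound is
`C B ^ (1 + δ) / Y`. -/
theorem result :
    ∀ (n d : ℕ) (v : Fin n → Fin d → ℤ) (Sg : Finset (Finset (Fin n))),
      SmoothCompleteFan v Sg →
      ∀ (q : ℕ) (F : Fin q → MvPolynomial (Fin n) ℤ) (a : Fin q → Fin n → ℤ),
        (∀ j, OfClass v (F j) (a j)) →
      ∀ S : Finset ℕ, (∀ p ∈ S, p.Prime) →
        NormalCrossingsOver Sg F ℝ →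
        (∀ p ∈ S, ∀ [Fact p.Prime], NormalCrossingsOver Sg F ℚ_[p]) →
      ∀ (κ : Fin n → ℝ), (∀ i, 0 ≤ κ i) → ∀ c δ : ℝ, 0 < δ →
        ∃ C : ℝ, ∀ B Y : ℝ, 1 ≤ B → 1 ≤ Y →
          {t : Fin d → ℚ | (∀ k, t k ≠ 0) ∧ ∀ (x : Fin n → ℤ) (b : Fin n → ℝ),
            CoxCoordinates v Sg t x → IsSize v Sg x b →
              (∀ j, MvPolynomial.eval x (F j) ≠ 0) ∧ (∀ i, Y ≤ b i) ∧ ∏ i, b i ≤ B ∧
              ∑ i, κ i * Real.log (b i) + c ≤ proximity F a S b x}.Finite ∧
          ({t : Fin d → ℚ | (∀ k, t k ≠ 0) ∧ ∀ (x : Fin n → ℤ) (b : Fin n → ℝ),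
            CoxCoordinates v Sg t x → IsSize v Sg x b →
              (∀ j, MvPolynomial.eval x (F j) ≠ 0) ∧ (∀ i, Y ≤ b i) ∧ ∏ i, b i ≤ B ∧
              ∑ i, κ i * Real.log (b i) + c ≤ proximity F a S b x}.ncard : ℝ) ≤
            C * B ^ (1 + δ) * Y ^ (-min (∑ i, κ i) 1) := by
  classical
  intro n d v Sg hfan q F a hF S hSp hR hQ κ hκ c δ hδ
  have h : Pool.Agent.K1H85.TV.IsSmoothCompleteFan v Sg := ⟨hfan.basis, hfan.complete, hfan.ray⟩
  obtain ⟨C, _, hC⟩ := Pool.Agent.K1H85.TV.main (Sg := Sg) F a hF S hSp hR hQ κ hκ c δ hδ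
  refine ⟨C, fun B Y hB hY => ?_⟩
  set Z : Set (Fin d → ℚ) := {t : Fin d → ℚ | (∀ k, t k ≠ 0) ∧
    ∀ (x : Fin n → ℤ) (b : Fin n → ℝ), CoxCoordinates v Sg t x → IsSize v Sg x b →
      (∀ j, MvPolynomial.eval x (F j) ≠ 0) ∧ (∀ i, Y ≤ b i) ∧ ∏ i, b i ≤ B ∧
      ∑ i, κ i * Real.log (b i) + c ≤ proximity F a S b x} with hZ
  have key : ∀ T : Finset (Fin d → ℚ), (T : Set (Fin d → ℚ)) ⊆ Z →
      (T.card : ℝ) ≤ C * B ^ (1 + δ) * Y ^ (-min (∑ i, κ i) 1) := by
    intro T hT
    have h1 : ∀ t ∈ T, ∃ x : Fin n → ℤ, CoxCoordinates v Sg t x := fun t ht =>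
      Pool.Agent.K1H85.TV.cox_exists h t (hT ht).1
    choose! x hx using h1
    have hinj : Set.InjOn x T := by
      intro t ht t' ht' hxx
      funext k
      rw [← (hx t ht).2.2 k, ← (hx t' ht').2.2 k, hxx]
    rw [← Finset.card_image_of_injOn hinj]
    apply hC B Y hB hY
    intro y hy
    obtain ⟨t, ht, rfl⟩ := Finset.mem_image.mp hy
    obtain ⟨b, hb, _⟩ := Pool.Agent.K1H85.TV.size_unique h (x t) (hx t ht).2.1
    obtain ⟨h1, h2, h3, h4⟩ := (hT ht).2 (x t) b (hx t ht) hb
    exact ⟨(hx t ht).1, h1, b, hb, h2, h3, h4⟩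
  have hfin : Z.Finite := by
    by_contra hinf
    obtain ⟨m, hm⟩ := exists_nat_gt (C * B ^ (1 + δ) * Y ^ (-min (∑ i, κ i) 1))
    obtain ⟨T, hT, hTc⟩ := Set.Infinite.exists_subset_card_eq hinf m
    have h1 := key T hT
    rw [hTc] at h1
    linarith
  refine ⟨hfin, ?_⟩
  rw [Set.ncard_eq_toFinset_card Z hfin]
  exact key hfin.toFinset (by simp)

end Pool.Agent.Results.MP_17a322_nt.ToricVarieties
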