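import Mathlib
import Pool.Agent.K1H83.VN.Mono

set_option autoImplicit false

/-!
# Vojta's inequality over number fields for all smooth projective varieties and all normal crossings
divisors, at the rational points proportional to short sums of units with coefficients of small height

`k` is a number field, `X` a smooth projective variety of dimension `N` over `k` in `ℙ^(N + s)` with
the equations `G a = 0`. `D = D_1 + ⋯ + D_q` is a divisor of `X` with strict normal crossings, `D_i`
the subvariety of `X` with the equations `F i j = 0`, `j < w`, `F i j` of degree `d i j` (not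
necessarily a hypersurface section). `S` is any finite set of places of `k` (the places of the
proximity function), `T` any finite set of places (the units are units outside of `T`).

All heights are relative to `k` (they are not divided by `[k : ℚ]`).
-/

namespace Pool.Agent.Results.MP_17a322_nt.UnitSumsOverNumberFields

open MvPolynomial NumberField IsDedekindDomain Height

/-- The places of a number field: the archimedean places and the primes. -/
abbrev Place (k : Type) [Field k] [NumberField k] : Type :=
  InfinitePlace k ⊕ HeightOneSpectrum (𝓞 k)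

/-- The absolute value of a place: the usual one for an archimedean place, and `(N p) ^ (-ord_p x)`
for a prime `p`. -/
noncomputable def Place.value {k : Type} [Field k] [NumberField k] (v : Place k) (x : k) : ℝ :=
  match v with
  | Sum.inl w => w x
  | Sum.inr p => FinitePlace.mk p x

/-- The multiplicity: `1` for a real place, `2` for a complex place, `1` for a prime. -/
noncomputable def Place.mult {k : Type} [Field k] [NumberField k] (v : Place k) : ℝ :=
  match v with
  | Sum.inl w => w.mult
  | Sum.inr _ => 1

variable {k : Type} [Field k] [NumberField k]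

/-- The local height for the place `v` of the subvariety with the equations `F j = 0` at `x`:
`-log max_j (|F j x|_v / max_i |x_i|_v ^ d j)`. -/
noncomputable def localHeight {M w : ℕ} (F : Fin w → MvPolynomial (Fin M) k) (d : Fin w → ℕ)
    (v : Place k) (x : Fin M → k) : ℝ :=
  -Real.log (⨆ j, v.value (eval x (F j)) / (⨆ i, v.value (x i)) ^ d j)

/-- The proximity function `m_{S,D}(x)` of `D = D_1 + ⋯ + D_q` for the set of places `S`, relative
to `k`: the sum of `[k : ℚ] d_v λ_{D_i,v}(x)` over `v ∈ S` and `i`. -/
noncomputable def proximity {M q w : ℕ} (F : Fin q → Fin w → MvPolynomial (Fin M) k)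
    (d : Fin q → Fin w → ℕ) (S : Finset (Place k)) (x : Fin M → k) : ℝ :=
  ∑ v ∈ S, v.mult * ∑ i, localHeight (F i) (d i) v x

/-- The columns of `A` are a basis of the tangent space of the affine cone over `X` at `x` (the
vectors orthogonal to all gradients of equations), `X` being smooth of dimension `N` at `x`. -/
def IsTangentBasis {M N g : ℕ} (G : Fin g → MvPolynomial (Fin M) k) (x : Fin M → k)
    (A : Matrix (Fin M) (Fin (N + 1)) k) : Prop :=
  LinearIndependent k (fun c : Fin (N + 1) => fun y : Fin M => A y c) ∧
    ∀ a c, ∑ y, eval x (pderiv y (G a)) * A y c = 0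

/-- The height `h_K(x)`, relative to `k`, for the canonical class `K` of `X`. The Gauss map `γ` sends a
point of `X` to its embedded tangent space, `γ^* O(1) = K + (N + 1) H` for the hyperplane class `H`,
and `h_K(x)` is the height of `γ(x)` (the height of the vector of the maximal minors of `A`) minus
`(N + 1) h(x)`. -/
noncomputable def canonicalHeight {M N : ℕ} (x : Fin M → k) (A : Matrix (Fin M) (Fin (N + 1)) k) :
    ℝ :=
  logHeight (fun J : Fin (N + 1) → Fin M => (A.submatrix J id).det) - (N + 1) * logHeight x

/-- The dimension of `X` is at least `N`: some `N + 1` coordinates are algebraically independent on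
the cone over `X`. -/
def DimGE {M g : ℕ} (N : ℕ) (G : Fin g → MvPolynomial (Fin M) k) : Prop :=
  ∃ J : Fin (N + 1) → Fin M, ∀ P : MvPolynomial (Fin (N + 1)) k,
    (∀ (L : Type) [Field L] [Algebra k L] (z : Fin M → L), (∀ a, aeval z (G a) = 0) →
      aeval (fun i => z (J i)) P = 0) → P = 0

/-- `X` is smooth of codimension `s` and `D` has strict normal crossings on `X`: at every point `z` of
`X` over every extension field `L` of `k`, for suitable `s` equations of `X` and one equation of each
component of `D` through `z`, all gradients at `z` are linearly independent. -/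
def SmoothPair {M g q w : ℕ} (s : ℕ) (G : Fin g → MvPolynomial (Fin M) k)
    (F : Fin q → Fin w → MvPolynomial (Fin M) k) : Prop :=
  ∀ (L : Type) [Field L] [Algebra k L] (z : Fin M → L), z ≠ 0 → (∀ a, aeval z (G a) = 0) →
    ∃ (K : Fin s → Fin g) (J : Fin q → Fin w),
      LinearIndependent L (Sum.elim
        (fun a : Fin s => fun y : Fin M => aeval z (pderiv y (G (K a))))
        (fun i : {i : Fin q // ∀ j, aeval z (F i j) = 0} => fun y : Fin M =>
          aeval z (pderiv y (F i.1 (J i.1)))))

/-- `u` is a unit outside of `T`: it is not zero and `|u|_p = 1` for all primes `p` not in `T` (for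
archimedean places there is no condition) -/
def IsUnitOutside (T : Finset (Place k)) (u : k) : Prop :=
  u ≠ 0 ∧ ∀ p : HeightOneSpectrum (𝓞 k), Sum.inr p ∉ T → Place.value (Sum.inr p) u = 1

/-- The point of the projective space given by `x` has homogeneous coordinates `lam * x i` which are
sums `∑ j, u j * c j i` where `u 1, …, u r` are units outside of `T` (the same for all coordinates)
and the height of each coefficient `c j i` is at most `δ h(x) + B`. -/
def IsShortSum {M : ℕ} (T : Finset (Place k)) (r : ℕ) (B δ : ℝ) (x : Fin M → k) : Prop :=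
  ∃ (lam : k) (u : Fin r → k) (c : Fin r → Fin M → k), lam ≠ 0 ∧ (∀ j, IsUnitOutside T (u j)) ∧
    (∀ j i, logHeight₁ (c j i) ≤ δ * logHeight x + B) ∧ ∀ i, lam * x i = ∑ j, u j * c j i

theorem value_eq (v : Place k) (x : k) : v.value x = Pool.Agent.W180.OP.av v x := by
  rcases v with v | v <;> rfl

theorem mult_eq (v : Place k) : v.mult = Pool.Agent.W180.OP.wt v := by
  rcases v with v | v <;> rfl

/-- **Main theorem.** Let `X` be a smooth projective variety of dimension `N` over a number field `k`
in `ℙ^(N + s)` and `D` a divisor of `X` with strict normal crossings. Let `S` and `T` be finite sets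
of places of `k`, `r` a natural number, `B` and `ε > 0` real numbers. There are `δ > 0`, a form `Φ`
that does not vanish on `X` and a constant `C` such that all `k`-rational points `x` of `X` off `D`
and off `Φ = 0` which have homogeneous coordinates that are sums of `r` units outside of `T` with
coefficients in `k` of height at most `δ h(x) + B` satisfy Vojta's inequality
`m_{S,D}(x) + h_K(x) ≤ ε h(x) + C`. -/
theorem result (k : Type) [Field k] [NumberField k] (N s g q w : ℕ)
    (G : Fin g → MvPolynomial (Fin (N + s + 1)) k) (e : Fin g → ℕ)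
    (hG : ∀ a, (G a).IsHomogeneous (e a)) (F : Fin q → Fin w → MvPolynomial (Fin (N + s + 1)) k)
    (d : Fin q → Fin w → ℕ) (hF : ∀ i j, (F i j).IsHomogeneous (d i j))
    (hdim : DimGE N G) (hsm : SmoothPair s G F) (S T : Finset (Place k))
    (r : ℕ) (B ε : ℝ) (hε : 0 < ε) :
    ∃ (δ : ℝ) (Φ : MvPolynomial (Fin (N + s + 1)) k) (m : ℕ) (C : ℝ), 0 < δ ∧
      Φ.IsHomogeneous m ∧
      (∃ (L : Type) (_ : Field L) (_ : Algebra k L) (z : Fin (N + s + 1) → L),
        (∀ a, aeval z (G a) = 0) ∧ aeval z Φ ≠ 0) ∧
      ∀ x : Fin (N + s + 1) → k, x ≠ 0 → (∀ a, eval x (G a) = 0) → IsShortSum T r B δ x →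
        eval x Φ ≠ 0 → (∀ i, ∃ j, eval x (F i j) ≠ 0) →
        ∀ A : Matrix (Fin (N + s + 1)) (Fin (N + 1)) k, IsTangentBasis G x A →
          proximity F d S x + canonicalHeight x A ≤ ε * logHeight x + C := by
  classical
  obtain ⟨J, hJ⟩ := hdim
  have hfin : Fintype (InfinitePlace k) := inferInstance
  obtain ⟨S', hS'⟩ : ∃ S' : Finset (Place k),
    S' = S ∪ T ∪ Finset.univ.image (fun w : InfinitePlace k => (Sum.inl w : Place k)) := ⟨_, rfl⟩
  have hSS : S ⊆ S' := by
    rw [hS']
    exact Finset.subset_union_left.trans Finset.subset_union_left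
  have hTS : T ⊆ S' := by
    rw [hS']
    exact Finset.subset_union_right.trans Finset.subset_union_left
  have hinf : ∀ w : InfinitePlace k, Sum.inl w ∈ S' := by
    intro w
    rw [hS']
    exact Finset.mem_union_right _ (Finset.mem_image_of_mem _ (Finset.mem_univ w))
  have hnc : ∀ (L : Type) [Field L] (φ : k →+* L), Pool.Agent.K1H83.VN.NCh φ s G F := by
    intro L _ φ z hz hzG
    let _ : Algebra k L := φ.toAlgebra
    obtain ⟨K, J', h⟩ := hsm L z hz hzG
    exact ⟨K, J', h⟩
  obtain ⟨δ, Ψ, m, C, hδ, hΨ0, hΨh, hPP⟩ := Pool.Agent.K1H83.VN.all_PP (n := N + 1) (sc := s)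
    S' hinf (by omega) G e hG F d hF hnc J B ε hε r
  obtain ⟨C', hC'⟩ := Pool.Agent.K1H83.VN.prox_mono S S' hSS F d hF
  refine ⟨δ, rename J Ψ, m, C' + C, hδ, hΨh.rename_isHomogeneous, ?_, ?_⟩
  · by_contra hcon
    apply hΨ0
    apply hJ
    intro L _ _ z hz
    by_contra h1
    apply hcon
    refine ⟨L, inferInstance, inferInstance, z, hz, ?_⟩
    rw [aeval_rename]
    exact h1
  · intro x hx hX hshort hΦ _ A hA
    rw [eval_rename] at hΦ
    have hsh : Pool.Agent.K1H83.VN.Short S' r B δ x := by
      obtain ⟨lam, u, c, h1, h2, h3, h4⟩ := hshort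
      exact ⟨lam, u, c, h1, fun j => ⟨(h2 j).1, fun p hp => (h2 j).2 p fun h => hp (hTS h)⟩,
        h3, h4⟩
    have h1 := hPP x hx hX hsh hΦ A hA
    have h2 := hC' x hx
    have h3 : proximity F d S x = Pool.Agent.K1H83.VN.prox S F d x := by
      unfold proximity localHeight Pool.Agent.K1H83.VN.prox Pool.Agent.K1H83.VN.lam
        Pool.Agent.K1H83.VN.nm
      simp only [value_eq, mult_eq]
    have h4 : canonicalHeight x A = Pool.Agent.K1H83.VN.hK x A := by
      unfold canonicalHeight Pool.Agent.K1H83.VN.hK
      push_cast
      rfl
    rw [h3, h4]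
    linarith

end Pool.Agent.Results.MP_17a322_nt.UnitSumsOverNumberFields
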